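import Pool.Agent.H98.PW.Stmts2

/-! # PW, row PWF: THEOREM B from THEOREM A -/

set_option autoImplicit false

namespace Pool.PW.WF

open Finset Pool.Agent.H98.ABCR Pool.PW

/-! ## Counting exponent vectors -/

theorem cnt_vec {ι : Type} [Fintype ι] [DecidableEq ι] (H : ℕ) (A : Finset (ι → ℕ))
    (hA : ∀ e ∈ A, ∑ i, e i ≤ H) (hk : 1 ≤ Fintype.card ι) :
    (A.card : ℝ) ≤ (Real.exp 1 * (1 + (H : ℝ) / Fintype.card ι)) ^ Fintype.card ι := by
  classical
  set k := Fintype.card ι with hkd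
  have hk0 : (0 : ℝ) < k := by exact_mod_cast hk
  rcases Nat.eq_zero_or_pos H with rfl | hH
  · have h1 : A.card ≤ 1 := by
      rw [Finset.card_le_one]
      intro a ha b hb
      funext i
      have ha' := Nat.le_zero.mp (hA a ha)
      have hb' := Nat.le_zero.mp (hA b hb)
      rw [Finset.sum_eq_zero_iff] at ha' hb'
      rw [ha' i (mem_univ _), hb' i (mem_univ _)]
    have h2 : (1 : ℝ) ≤ (Real.exp 1 * (1 + ((0 : ℕ) : ℝ) / k)) ^ k := by
      apply one_le_pow₀
      have := Real.add_one_le_exp (1 : ℝ)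
      simp only [Nat.cast_zero, zero_div, add_zero, mul_one]
      linarith
    calc (A.card : ℝ) ≤ 1 := by exact_mod_cast h1
      _ ≤ _ := h2
  · have hH0 : (0 : ℝ) < H := by exact_mod_cast hH
    set x : ℝ := H / (H + k) with hx
    have hx0 : 0 < x := by positivity
    have hx1 : x < 1 := by rw [hx, div_lt_one (by positivity)]; linarith
    have h1x : 1 - x = k / (H + k) := by rw [hx]; field_simp; ring
    have hgeo : ∀ n : ℕ, ∑ j ∈ range n, x ^ j ≤ (1 - x)⁻¹ := by
      intro n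
      have h := geom_sum_mul_neg x n
      rw [← one_div, le_div_iff₀ (by linarith), h]
      have : 0 < x ^ n := by positivity
      linarith
    have hsub : A ⊆ Fintype.piFinset (fun _ : ι => range (H + 1)) := by
      intro e he
      rw [Fintype.mem_piFinset]
      intro i
      rw [mem_range]
      have := Finset.single_le_sum (f := e) (fun _ _ => Nat.zero_le _) (mem_univ i)
      have := hA e he
      omega
    have hmain : (A.card : ℝ) * x ^ H ≤ ((1 - x)⁻¹) ^ k := by
      calc (A.card : ℝ) * x ^ H = ∑ _e ∈ A, x ^ H := by rw [Finset.sum_const, nsmul_eq_mul]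
        _ ≤ ∑ e ∈ A, ∏ i, x ^ e i := by
            refine Finset.sum_le_sum fun e he => ?_
            rw [Finset.prod_pow_eq_pow_sum]
            exact pow_le_pow_of_le_one hx0.le hx1.le (hA e he)
        _ ≤ ∑ e ∈ Fintype.piFinset (fun _ : ι => range (H + 1)), ∏ i, x ^ e i :=
            Finset.sum_le_sum_of_subset_of_nonneg hsub fun e _ _ =>
              Finset.prod_nonneg fun _ _ => by positivity
        _ = ∏ _i : ι, ∑ j ∈ range (H + 1), x ^ j := by
            rw [Finset.prod_univ_sum]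
        _ ≤ ∏ _i : ι, (1 - x)⁻¹ := by
            refine Finset.prod_le_prod (fun _ _ => Finset.sum_nonneg fun _ _ => by positivity)
              fun _ _ => hgeo _
        _ = ((1 - x)⁻¹) ^ k := by rw [Finset.prod_const, Finset.card_univ]
    have hinv : (1 - x)⁻¹ = 1 + (H : ℝ) / k := by
      rw [h1x, inv_div]; field_simp; ring
    have hxH : 1 ≤ x ^ H * (Real.exp 1) ^ k := by
      have h1 : x⁻¹ ≤ Real.exp ((k : ℝ) / H) := by
        have : x⁻¹ = (k : ℝ) / H + 1 := by rw [hx, inv_div]; field_simp; ring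
        rw [this]; exact Real.add_one_le_exp _
      have h2 : (x⁻¹) ^ H ≤ (Real.exp 1) ^ k := by
        calc (x⁻¹) ^ H ≤ (Real.exp ((k : ℝ) / H)) ^ H := pow_le_pow_left₀ (by positivity) h1 _
          _ = Real.exp k := by
              rw [← Real.exp_nat_mul]
              congr 1
              field_simp
          _ = (Real.exp 1) ^ k := by rw [← Real.exp_nat_mul, mul_one]
      calc (1 : ℝ) = x ^ H * (x⁻¹) ^ H := by rw [← mul_pow, mul_inv_cancel₀ hx0.ne', one_pow]
        _ ≤ x ^ H * (Real.exp 1) ^ k := mul_le_mul_of_nonneg_left h2 (by positivity)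
    calc (A.card : ℝ) ≤ (A.card : ℝ) * (x ^ H * (Real.exp 1) ^ k) :=
          le_mul_of_one_le_right (by positivity) hxH
      _ = ((A.card : ℝ) * x ^ H) * (Real.exp 1) ^ k := by ring
      _ ≤ ((1 - x)⁻¹) ^ k * (Real.exp 1) ^ k := mul_le_mul_of_nonneg_right hmain (by positivity)
      _ = (Real.exp 1 * (1 + (H : ℝ) / k)) ^ k := by rw [hinv, ← mul_pow, mul_comm]

/-! ## Triples -/

/-- the part of the coordinates made of the primes of `r` -/
def alp (r : ℕ) (v : ℕ × ℕ) (s : Fin 3) : ℕ :=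
  ∏ p ∈ r.primeFactors, p ^ (coord v s).factorization p

theorem coord_pos {v : ℕ × ℕ} (h : IsTri v) (s : Fin 3) : 0 < coord v s := by
  obtain ⟨h1, h2, _⟩ := h
  fin_cases s <;> simp [coord] <;> omega

theorem coord_le (v : ℕ × ℕ) (s : Fin 3) : coord v s ≤ v.1 + v.2 := by
  fin_cases s <;> simp [coord]

theorem nn_pos {v : ℕ × ℕ} (h : IsTri v) : 0 < nn v := by
  obtain ⟨h1, h2, _⟩ := h
  unfold nn
  positivity

theorem coord_dvd (v : ℕ × ℕ) (s : Fin 3) : coord v s ∣ nn v := by
  fin_cases s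
  · exact ⟨v.2 * (v.1 + v.2), by simp [coord, nn, mul_assoc]⟩
  · exact ⟨v.1 * (v.1 + v.2), by simp [coord, nn]; ring⟩
  · exact ⟨v.1 * v.2, by simp [coord, nn]; ring⟩

theorem prod_dvd (P : Finset ℕ) (n : ℕ) (hn : n ≠ 0) : ∏ p ∈ P, p ^ n.factorization p ∣ n := by
  classical
  have h1 : ∏ p ∈ P, p ^ n.factorization p = ∏ p ∈ P ∩ n.primeFactors, p ^ n.factorization p := by
    symm
    refine Finset.prod_subset Finset.inter_subset_left fun p hp hp' => ?_
    have : n.factorization p = 0 := by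
      rw [← Finsupp.notMem_support_iff, Nat.support_factorization]
      exact fun h => hp' (Finset.mem_inter.mpr ⟨hp, h⟩)
    rw [this, pow_zero]
  have h2 : n = ∏ p ∈ n.primeFactors, p ^ n.factorization p :=
    (Nat.prod_factorization_pow_eq_self hn).symm
  rw [h1]
  conv_rhs => rw [h2]
  exact Finset.prod_dvd_prod_of_subset _ _ _ Finset.inter_subset_right

theorem sum_fac_le (P : Finset ℕ) (hP : ∀ p ∈ P, p.Prime) (n : ℕ) (hn : 0 < n) :
    ∑ p ∈ P, n.factorization p ≤ Nat.log 2 n := by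
  refine Nat.le_log_of_pow_le (by norm_num) ?_
  calc 2 ^ ∑ p ∈ P, n.factorization p = ∏ p ∈ P, 2 ^ n.factorization p := by
        rw [Finset.prod_pow_eq_pow_sum]
    _ ≤ ∏ p ∈ P, p ^ n.factorization p :=
        Finset.prod_le_prod' fun p hp => Nat.pow_le_pow_left (hP p hp).two_le _
    _ ≤ n := Nat.le_of_dvd hn (prod_dvd P n hn.ne')

/-- the number of classes for a given `r` -/
theorem cnt_cls (r : ℕ) (X η : ℝ) (hX : 1 ≤ X) (hη : 0 < η) (G : Finset (ℕ × ℕ))
    (hG : ∀ v ∈ G, IsTri v ∧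
      (om r : ℝ) * Real.log (2 + Real.log ((v.1 + v.2 : ℕ) : ℝ) / om r) ≤ η * Real.log X) :
    ((G.image (alp r)).card : ℝ) ≤ X ^ (12 * η) := by
  classical
  have hX1 : 1 ≤ X ^ (12 * η) := Real.one_le_rpow hX (by positivity)
  rcases G.eq_empty_or_nonempty with rfl | hne
  · simp; positivity
  rcases Nat.eq_zero_or_pos (om r) with h0 | hpos
  · have : r.primeFactors = ∅ := by unfold om at h0; exact Finset.card_eq_zero.mp h0
    have h1 : (G.image (alp r)).card ≤ 1 := by
      rw [Finset.card_le_one]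
      intro a ha b hb
      obtain ⟨v, _, rfl⟩ := Finset.mem_image.mp ha
      obtain ⟨w, _, rfl⟩ := Finset.mem_image.mp hb
      funext s
      unfold alp
      rw [this]
      rfl
    calc ((G.image (alp r)).card : ℝ) ≤ 1 := by exact_mod_cast h1
      _ ≤ _ := hX1
  obtain ⟨v0, hv0, hmax⟩ := Finset.exists_max_image G (fun v => v.1 + v.2) hne
  set c0 : ℕ := v0.1 + v0.2 with hc0
  set k : ℕ := om r with hk
  have hk0 : (0 : ℝ) < k := by exact_mod_cast hpos
  set h : ℝ := Real.log ((c0 : ℕ) : ℝ) with hh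
  have hc1 : 1 ≤ c0 := by have := (hG v0 hv0).1.1; omega
  have hh0 : 0 ≤ h := Real.log_natCast_nonneg _
  set H : ℕ := 3 * Nat.log 2 c0 with hH
  have hH5 : (H : ℝ) ≤ 5 * h := by
    have h1 : ((Nat.log 2 c0 : ℕ) : ℝ) * Real.log 2 ≤ h := by
      have h2 : 2 ^ Nat.log 2 c0 ≤ c0 := Nat.pow_log_le_self 2 (by omega)
      have h3 : Real.log ((2 : ℝ) ^ Nat.log 2 c0) ≤ Real.log c0 :=
        Real.log_le_log (by positivity) (by exact_mod_cast h2)
      rwa [Real.log_pow] at h3
    have h4 := Real.log_two_gt_d9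
    have h5 : (0 : ℝ) ≤ (Nat.log 2 c0 : ℕ) := by positivity
    rw [hH]
    push_cast
    nlinarith
  -- the exponent vectors
  let ev : ℕ × ℕ → (r.primeFactors × Fin 3 → ℕ) := fun v i => (coord v i.2).factorization i.1
  have himg : G.image (alp r) = (G.image ev).image
      (fun e s => ∏ p : r.primeFactors, (p : ℕ) ^ e (p, s)) := by
    rw [Finset.image_image]
    refine Finset.image_congr fun v _ => ?_
    funext s
    simp only [Function.comp, ev, alp]
    rw [← Finset.prod_coe_sort r.primeFactors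
      (fun p => p ^ (coord v s).factorization p)]
  have hcard : Fintype.card (r.primeFactors × Fin 3) = 3 * k := by
    rw [Fintype.card_prod, Fintype.card_coe, Fintype.card_fin, hk, om]
    ring
  have h1 := cnt_vec H (G.image ev) (fun e he => by
    obtain ⟨v, hv, rfl⟩ := Finset.mem_image.mp he
    rw [Fintype.sum_prod_type_right]
    have hs : ∀ s : Fin 3, ∑ p : r.primeFactors, ev v (p, s) ≤ Nat.log 2 c0 := by
      intro s
      have e1 : ∑ p : r.primeFactors, ev v (p, s) = ∑ p ∈ r.primeFactors,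
          (coord v s).factorization p := by
        rw [← Finset.sum_coe_sort r.primeFactors (fun p => (coord v s).factorization p)]
      rw [e1]
      refine (sum_fac_le _ (fun p hp => Nat.prime_of_mem_primeFactors hp) _
        (coord_pos (hG v hv).1 s)).trans ?_
      exact Nat.log_mono_right ((coord_le v s).trans (hmax v hv))
    calc ∑ s : Fin 3, ∑ p : r.primeFactors, ev v (p, s) ≤ ∑ _s : Fin 3, Nat.log 2 c0 :=
          Finset.sum_le_sum fun s _ => hs s
      _ = H := by rw [Finset.sum_const, hH]; simp) (by rw [hcard]; omega)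
  rw [hcard] at h1
  have hq : (2 : ℝ) ≤ 2 + h / k := by have : 0 ≤ h / k := by positivity
                                      linarith
  have h2 : Real.exp 1 * (1 + (H : ℝ) / ((3 * k : ℕ) : ℝ)) ≤ (2 + h / k) ^ 4 := by
    have e1 : (H : ℝ) / ((3 * k : ℕ) : ℝ) ≤ 5 / 3 * (h / k) := by
      push_cast
      rw [div_le_iff₀ (by positivity)]
      calc (H : ℝ) ≤ 5 * h := hH5
        _ = 5 / 3 * (h / k) * (3 * k) := by field_simp
    have e2 : Real.exp 1 < 2.7182818286 := Real.exp_one_lt_d9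
    have e3 : 0 ≤ (H : ℝ) / ((3 * k : ℕ) : ℝ) := by positivity
    have e4 : 1 + (H : ℝ) / ((3 * k : ℕ) : ℝ) ≤ 5 / 3 * (2 + h / k) := by linarith
    have e5 : (8 : ℝ) ≤ (2 + h / k) ^ 3 := by
      calc (8 : ℝ) = 2 ^ 3 := by norm_num
        _ ≤ _ := pow_le_pow_left₀ (by norm_num) hq 3
    calc Real.exp 1 * (1 + (H : ℝ) / ((3 * k : ℕ) : ℝ))
        ≤ 3 * (5 / 3 * (2 + h / k)) := by
          refine mul_le_mul (by linarith) e4 (by linarith) (by norm_num)
      _ = 5 * (2 + h / k) := by ring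
      _ ≤ (2 + h / k) ^ 3 * (2 + h / k) := mul_le_mul_of_nonneg_right (by linarith) (by linarith)
      _ = (2 + h / k) ^ 4 := by ring
  have h3 := (hG v0 hv0).2
  calc ((G.image (alp r)).card : ℝ) ≤ ((G.image ev).card : ℝ) := by
        rw [himg]; exact_mod_cast Finset.card_image_le
    _ ≤ (Real.exp 1 * (1 + (H : ℝ) / ((3 * k : ℕ) : ℝ))) ^ (3 * k) := h1
    _ ≤ ((2 + h / k) ^ 4) ^ (3 * k) := pow_le_pow_left₀ (by positivity) h2 _
    _ = Real.exp (12 * (k * Real.log (2 + h / k))) := by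
        rw [← pow_mul, ← Real.exp_log (show (0 : ℝ) < (2 + h / k) ^ (4 * (3 * k)) by positivity),
          Real.log_pow]
        congr 1
        push_cast
        ring
    _ ≤ Real.exp (12 * (η * Real.log X)) := Real.exp_le_exp.mpr (by
        have : (k : ℝ) * Real.log (2 + h / k) ≤ η * Real.log X := h3
        linarith)
    _ = X ^ (12 * η) := by
        rw [Real.rpow_def_of_pos (by linarith)]
        congr 1
        ring

/-! ## Power products -/

theorem pp_one (X : ℝ) : PowProd 0 X 1 :=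
  ⟨Fin.elim0, Fin.elim0, fun k => k.elim0, by simp⟩

theorem pp_cons {N : ℕ} {X : ℝ} {a : ℕ} (h : PowProd N X a) (y e : ℕ) (hy : 1 ≤ y)
    (hyX : (y : ℝ) ≤ X) : PowProd (N + 1) X (y ^ e * a) := by
  obtain ⟨x, f, hx, rfl⟩ := h
  refine ⟨Fin.cons y x, Fin.cons e f, fun k => ?_, ?_⟩
  · refine Fin.cases ?_ (fun j => ?_) k
    · exact ⟨hy, hyX⟩
    · simpa using hx j
  · rw [Fin.prod_univ_succ]
    simp

theorem pp_mono {N M : ℕ} {X : ℝ} (hX : 1 ≤ X) {a : ℕ} (h : PowProd N X a) (hNM : N ≤ M) :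
    PowProd M X a := by
  induction M, hNM using Nat.le_induction with
  | base => exact h
  | succ n _ ih => simpa using pp_cons ih 1 0 le_rfl (by simpa using hX)

theorem pp_set {X : ℝ} (D : Finset ℕ) (y : ℕ → ℕ) (hy : ∀ d ∈ D, 1 ≤ y d ∧ (y d : ℝ) ≤ X) :
    PowProd D.card X (∏ d ∈ D, y d ^ d) := by
  classical
  induction D using Finset.induction_on with
  | empty => simpa using pp_one X
  | insert a s ha ih =>
    rw [Finset.card_insert_of_notMem ha, Finset.prod_insert ha]
    exact pp_cons (ih fun d hd => hy d (Finset.mem_insert_of_mem hd)) _ _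
      (hy a (Finset.mem_insert_self _ _)).1 (hy a (Finset.mem_insert_self _ _)).2

/-- a prime divides only one coordinate -/
theorem fac_nn {v : ℕ × ℕ} (hv : IsTri v) (s : Fin 3) (p : ℕ) (hp : p.Prime)
    (hd : p ∣ coord v s) : (nn v).factorization p = (coord v s).factorization p := by
  obtain ⟨h1, h2, h3⟩ := hv
  have hne : v.1 ≠ 0 ∧ v.2 ≠ 0 ∧ v.1 + v.2 ≠ 0 := by omega
  have e : (nn v).factorization p = v.1.factorization p + v.2.factorization p +
      (v.1 + v.2).factorization p := by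
    unfold nn
    rw [Nat.factorization_mul (mul_ne_zero hne.1 hne.2.1) hne.2.2,
      Nat.factorization_mul hne.1 hne.2.1]
    rfl
  have z : ∀ n : ℕ, ¬ p ∣ n → n.factorization p = 0 := fun n hn =>
    Nat.factorization_eq_zero_of_not_dvd hn
  have nd : ∀ a b : ℕ, a.Coprime b → p ∣ a → ¬ p ∣ b := fun a b hab ha hb =>
    hp.one_lt.ne' (Nat.dvd_one.mp (hab ▸ Nat.dvd_gcd ha hb))
  have c13 : v.1.Coprime (v.1 + v.2) := by simpa using h3
  have c23 : v.2.Coprime (v.1 + v.2) := by simpa using h3.symm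
  rw [e]
  fin_cases s
  · have hd' : p ∣ v.1 := hd
    change _ = v.1.factorization p
    rw [z _ (nd _ _ h3 hd'), z _ (nd _ _ c13 hd')]
    ring
  · have hd' : p ∣ v.2 := hd
    change _ = v.2.factorization p
    rw [z _ (nd _ _ h3.symm hd'), z _ (nd _ _ c23 hd')]
    ring
  · have hd' : p ∣ v.1 + v.2 := hd
    change _ = (v.1 + v.2).factorization p
    rw [z _ (nd _ _ c13.symm hd'), z _ (nd _ _ c23.symm hd')]
    ring

/-- the decomposition of the coordinates -/
theorem decomp (N E r : ℕ) (X : ℝ) (hX : 1 ≤ X) (v : ℕ × ℕ) (hv : IsTri v) (hR : (RR v : ℝ) ≤ X)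
    (hN : (dex E r (nn v)).card ≤ N) (hr : r ≠ 0) (s : Fin 3) :
    ∃ b, PowProd (N + 1) (X ^ (E + 1)) b ∧ coord v s = alp r v s * b := by
  classical
  set n := coord v s with hn
  have hn0 : 0 < n := coord_pos hv s
  have hXE : X ≤ X ^ (E + 1) := by
    calc X = X ^ 1 := (pow_one X).symm
      _ ≤ X ^ (E + 1) := pow_le_pow_right₀ hX (by omega)
  have hXE1 : 1 ≤ X ^ (E + 1) := hX.trans hXE
  set f := n.factorization with hf
  set D := dex E r (nn v) with hD
  set Q := n.primeFactors.filter (fun p => ¬ p ∣ r) with hQ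
  set Q1 := Q.filter (fun p => f p ≤ E) with hQ1
  set Q2 := Q.filter (fun p => ¬ f p ≤ E) with hQ2
  have hsubR : ∀ S : Finset ℕ, S ⊆ n.primeFactors → ∏ p ∈ S, p ≤ RR v := by
    intro S hS
    unfold RR rad
    refine Finset.prod_le_prod_of_subset_of_one_le' ?_ ?_
    · intro p hp
      exact Nat.primeFactors_mono (coord_dvd v s) (nn_pos hv).ne' (hS hp)
    · intro p hp _
      exact (Nat.prime_of_mem_primeFactors hp).one_lt.le
  have hQs : Q ⊆ n.primeFactors := Finset.filter_subset _ _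
  have hone : ∀ S : Finset ℕ, S ⊆ n.primeFactors → 1 ≤ ∏ p ∈ S, p := by
    intro S hS
    exact Nat.one_le_iff_ne_zero.mpr (Finset.prod_ne_zero_iff.mpr fun p hp =>
      (Nat.prime_of_mem_primeFactors (hS hp)).ne_zero)
  -- the part with large exponents
  have hmaps : ∀ p ∈ Q2, f p ∈ D := by
    intro p hp
    rw [hQ2, Finset.mem_filter, hQ, Finset.mem_filter] at hp
    obtain ⟨⟨hp1, hp2⟩, hp3⟩ := hp
    have hpp := Nat.prime_of_mem_primeFactors hp1
    have hpd := Nat.dvd_of_mem_primeFactors hp1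
    have hfac := fac_nn hv s p hpp hpd
    rw [hD, dex, Finset.mem_image]
    refine ⟨p, Finset.mem_filter.mpr ⟨?_, hp2, ?_⟩, hfac⟩
    · exact Nat.primeFactors_mono (coord_dvd v s) (nn_pos hv).ne' hp1
    · rw [hfac]; exact not_le.mp hp3
  have hprod2 : ∏ p ∈ Q2, p ^ f p = ∏ d ∈ D, (∏ p ∈ Q2.filter (fun p => f p = d), p) ^ d := by
    rw [← Finset.prod_fiberwise_of_maps_to hmaps]
    refine Finset.prod_congr rfl fun d _ => ?_
    rw [← Finset.prod_pow]
    refine Finset.prod_congr rfl fun p hp => ?_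
    rw [(Finset.mem_filter.mp hp).2]
  have hsub2 : ∀ d, Q2.filter (fun p => f p = d) ⊆ n.primeFactors := fun d =>
    (Finset.filter_subset _ _).trans ((Finset.filter_subset _ _).trans hQs)
  have hpp2 : PowProd N (X ^ (E + 1)) (∏ p ∈ Q2, p ^ f p) := by
    rw [hprod2]
    refine pp_mono hXE1 (pp_set D _ fun d _ => ⟨hone _ (hsub2 d), ?_⟩) hN
    calc ((∏ p ∈ Q2.filter (fun p => f p = d), p : ℕ) : ℝ) ≤ (RR v : ℝ) := by
          exact_mod_cast hsubR _ (hsub2 d)
      _ ≤ X := hR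
      _ ≤ X ^ (E + 1) := hXE
  -- the part with small exponents
  have hsub1 : Q1 ⊆ n.primeFactors := (Finset.filter_subset _ _).trans hQs
  have hb1 : ∏ p ∈ Q1, p ^ f p ≤ (RR v) ^ E := by
    calc ∏ p ∈ Q1, p ^ f p ≤ ∏ p ∈ Q1, p ^ E := by
          refine Finset.prod_le_prod' fun p hp => ?_
          exact Nat.pow_le_pow_right (Nat.prime_of_mem_primeFactors (hsub1 hp)).pos
            (Finset.mem_filter.mp hp).2
      _ = (∏ p ∈ Q1, p) ^ E := Finset.prod_pow _ _ _
      _ ≤ (RR v) ^ E := Nat.pow_le_pow_left (hsubR _ hsub1) _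
  have hb1' : ((∏ p ∈ Q1, p ^ f p : ℕ) : ℝ) ≤ X ^ (E + 1) := by
    calc ((∏ p ∈ Q1, p ^ f p : ℕ) : ℝ) ≤ (((RR v) ^ E : ℕ) : ℝ) := by exact_mod_cast hb1
      _ = (RR v : ℝ) ^ E := by push_cast; rfl
      _ ≤ X ^ E := pow_le_pow_left₀ (by positivity) hR _
      _ ≤ X ^ (E + 1) := pow_le_pow_right₀ hX (by omega)
  have hb1'' : 1 ≤ ∏ p ∈ Q1, p ^ f p :=
    Nat.one_le_iff_ne_zero.mpr (Finset.prod_ne_zero_iff.mpr fun p hp =>
      pow_ne_zero _ (Nat.prime_of_mem_primeFactors (hsub1 hp)).ne_zero)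
  refine ⟨(∏ p ∈ Q1, p ^ f p) ^ 1 * ∏ p ∈ Q2, p ^ f p, pp_cons hpp2 _ 1 hb1'' hb1', ?_⟩
  -- the product
  have hself : n = ∏ p ∈ n.primeFactors, p ^ f p := (Nat.prod_factorization_pow_eq_self hn0.ne').symm
  have hsplit : ∏ p ∈ n.primeFactors, p ^ f p =
      (∏ p ∈ Q, p ^ f p) * ∏ p ∈ n.primeFactors.filter (fun p => ¬ ¬ p ∣ r), p ^ f p :=
    (Finset.prod_filter_mul_prod_filter_not _ _ _).symm
  have hsplit2 : ∏ p ∈ Q, p ^ f p = (∏ p ∈ Q1, p ^ f p) * ∏ p ∈ Q2, p ^ f p :=
    (Finset.prod_filter_mul_prod_filter_not _ _ _).symm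
  have halp : alp r v s = ∏ p ∈ n.primeFactors.filter (fun p => ¬ ¬ p ∣ r), p ^ f p := by
    unfold alp
    rw [← hn]
    symm
    refine Finset.prod_subset_one_on_sdiff ?_ ?_ (fun _ _ => rfl)
    · intro p hp
      rw [Finset.mem_filter] at hp
      exact Nat.mem_primeFactors.mpr ⟨Nat.prime_of_mem_primeFactors hp.1, not_not.mp hp.2, hr⟩
    · intro p hp
      rw [Finset.mem_sdiff, Finset.mem_filter] at hp
      have h0 : f p = 0 := by
        rw [hf, ← Finsupp.notMem_support_iff, Nat.support_factorization]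
        intro h
        exact hp.2 ⟨h, not_not.mpr (Nat.dvd_of_mem_primeFactors hp.1)⟩
      rw [← hf, h0, pow_zero]
  rw [halp, pow_one, ← hsplit2]
  conv_lhs => rw [hself, hsplit]
  ring

end Pool.PW.WF

namespace Pool.PW

open Finset Pool.Agent.H98.ABCR Pool.PW.WF

theorem pwf_thm (hA : S_PWR) : S_PWF := by
  classical
  intro N E ε hε
  have hE0 : (0 : ℝ) < (E : ℝ) + 1 := by positivity
  obtain ⟨K', η', C', hK', hη', hC', H⟩ := hA (N + 1) (ε / (2 * ((E : ℝ) + 1))) (by positivity)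
  refine ⟨K' * (E + 1), min η' (ε / 24), C', ?_, lt_min hη' (by positivity), hC', ?_⟩
  · nlinarith [Nat.cast_nonneg (α := ℝ) E]
  intro X Y F hX hY hF
  have hX0 : 0 < X := by linarith
  have hη1 : min η' (ε / 24) ≤ η' := min_le_left _ _
  have hη2 : min η' (ε / 24) ≤ ε / 24 := min_le_right _ _
  have hlX : 0 ≤ Real.log X := Real.log_nonneg hX
  choose! R hR using fun v hv => (hF v hv).2.2.2.2
  have hRRpos : ∀ v, IsTri v → 0 < RR v := by
    intro v _
    unfold RR rad
    exact Finset.prod_pos fun p hp => (Nat.prime_of_mem_primeFactors hp).pos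
  set key : ℕ × ℕ → ℕ × (Fin 3 → ℕ) := fun v => (R v, alp (R v) v) with hkey
  -- the fibres
  have hfib : ∀ κ ∈ F.image key, ((F.filter (fun v => key v = κ)).card : ℝ) ≤ C' * X ^ (ε / 2) := by
    intro κ _
    have h1 := H (X ^ (E + 1)) κ.2 (F.filter (fun v => key v = κ)) (one_le_pow₀ hX) (by
      intro v hv
      rw [Finset.mem_filter] at hv
      obtain ⟨hvF, hvκ⟩ := hv
      obtain ⟨t1, t2, t3, t4, -⟩ := hF v hvF
      obtain ⟨r1, r2, r3, r4⟩ := hR v hvF
      refine ⟨t1, ?_, ?_, ?_⟩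
      · refine le_trans (le_of_eq ?_) t3
        rw [← Real.rpow_natCast X, ← Real.rpow_mul hX0.le]
        congr 1
        push_cast
        ring
      · refine t4.trans ?_
        calc X ^ (min η' (ε / 24)) ≤ X ^ η' := Real.rpow_le_rpow_of_exponent_le hX hη1
          _ ≤ (X ^ (E + 1)) ^ η' := Real.rpow_le_rpow hX0.le (by
              calc X = X ^ 1 := (pow_one X).symm
                _ ≤ X ^ (E + 1) := pow_le_pow_right₀ hX (by omega)) hη'.le
      · intro s
        have hr0 : R v ≠ 0 := fun h0 => by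
          rw [h0] at r1
          exact (hRRpos v t1).ne' (Nat.eq_zero_of_zero_dvd r1)
        obtain ⟨b, hb1, hb2⟩ := decomp N E (R v) X hX v t1 t2 r3 hr0 s
        refine ⟨b, hb1, ?_⟩
        rw [hb2, ← hvκ])
    refine h1.trans (le_of_eq ?_)
    congr 1
    rw [← Real.rpow_natCast X, ← Real.rpow_mul hX0.le]
    congr 1
    push_cast
    field_simp
  -- the number of classes
  have hRimg : ((F.image R).card : ℝ) ≤ Y := by
    have hsub : F.image R ⊆ Finset.Icc 1 ⌊Y⌋₊ := by
      intro ρ hρ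
      obtain ⟨v, hv, rfl⟩ := Finset.mem_image.mp hρ
      obtain ⟨r1, r2, r3, r4⟩ := hR v hv
      rw [Finset.mem_Icc]
      refine ⟨Nat.one_le_iff_ne_zero.mpr fun h0 => ?_, Nat.le_floor r2⟩
      rw [h0] at r1
      exact (hRRpos v (hF v hv).1).ne' (Nat.eq_zero_of_zero_dvd r1)
    have h1 := Finset.card_le_card hsub
    rw [Nat.card_Icc, Nat.add_sub_cancel] at h1
    calc ((F.image R).card : ℝ) ≤ (⌊Y⌋₊ : ℝ) := by exact_mod_cast h1
      _ ≤ Y := Nat.floor_le (by linarith)
  have hcls : ∀ ρ ∈ F.image R,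
      (((F.filter (fun v => R v = ρ)).image (fun v => (ρ, alp ρ v))).card : ℝ) ≤ X ^ (ε / 2) := by
    intro ρ _
    have h1 := cnt_cls ρ X (ε / 24) hX (by positivity) (F.filter (fun v => R v = ρ)) (by
      intro v hv
      rw [Finset.mem_filter] at hv
      obtain ⟨hvF, hvρ⟩ := hv
      obtain ⟨r1, r2, r3, r4⟩ := hR v hvF
      refine ⟨(hF v hvF).1, ?_⟩
      rw [hvρ] at r4
      exact r4.trans (mul_le_mul_of_nonneg_right hη2 hlX))
    have h2 : (F.filter (fun v => R v = ρ)).image (fun v => (ρ, alp ρ v)) =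
        ((F.filter (fun v => R v = ρ)).image (alp ρ)).image (Prod.mk ρ) := by
      rw [Finset.image_image]; rfl
    rw [h2]
    calc ((((F.filter (fun v => R v = ρ)).image (alp ρ)).image (Prod.mk ρ)).card : ℝ)
        ≤ (((F.filter (fun v => R v = ρ)).image (alp ρ)).card : ℝ) := by
          exact_mod_cast Finset.card_image_le
      _ ≤ X ^ (12 * (ε / 24)) := h1
      _ = X ^ (ε / 2) := by congr 1; ring
  have hkeys : ((F.image key).card : ℝ) ≤ Y * X ^ (ε / 2) := by
    have hsub : F.image key ⊆ (F.image R).biUnion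
        (fun ρ => (F.filter (fun v => R v = ρ)).image (fun v => (ρ, alp ρ v))) := by
      intro κ hκ
      obtain ⟨v, hv, rfl⟩ := Finset.mem_image.mp hκ
      rw [Finset.mem_biUnion]
      exact ⟨R v, Finset.mem_image_of_mem _ hv, Finset.mem_image.mpr
        ⟨v, Finset.mem_filter.mpr ⟨hv, rfl⟩, rfl⟩⟩
    calc ((F.image key).card : ℝ) ≤ (((F.image R).biUnion
          (fun ρ => (F.filter (fun v => R v = ρ)).image (fun v => (ρ, alp ρ v)))).card : ℝ) := by
          exact_mod_cast Finset.card_le_card hsub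
      _ ≤ ((∑ ρ ∈ F.image R,
          ((F.filter (fun v => R v = ρ)).image (fun v => (ρ, alp ρ v))).card : ℕ) : ℝ) := by
          exact_mod_cast Finset.card_biUnion_le
      _ = ∑ ρ ∈ F.image R,
          (((F.filter (fun v => R v = ρ)).image (fun v => (ρ, alp ρ v))).card : ℝ) := by
          push_cast; rfl
      _ ≤ ∑ _ρ ∈ F.image R, X ^ (ε / 2) := Finset.sum_le_sum hcls
      _ = ((F.image R).card : ℝ) * X ^ (ε / 2) := by rw [Finset.sum_const, nsmul_eq_mul]
      _ ≤ Y * X ^ (ε / 2) := mul_le_mul_of_nonneg_right hRimg (by positivity)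
  calc (F.card : ℝ) = ∑ κ ∈ F.image key, ((F.filter (fun v => key v = κ)).card : ℝ) := by
        rw [Finset.card_eq_sum_card_image key F]
        push_cast
        rfl
    _ ≤ ∑ _κ ∈ F.image key, C' * X ^ (ε / 2) := Finset.sum_le_sum hfib
    _ = ((F.image key).card : ℝ) * (C' * X ^ (ε / 2)) := by rw [Finset.sum_const, nsmul_eq_mul]
    _ ≤ (Y * X ^ (ε / 2)) * (C' * X ^ (ε / 2)) :=
        mul_le_mul_of_nonneg_right hkeys (by positivity)
    _ = C' * Y * (X ^ (ε / 2) * X ^ (ε / 2)) := by ring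
    _ = C' * Y * X ^ ε := by rw [← Real.rpow_add hX0]; congr 2; ring

end Pool.PW
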