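import Pool.Agent.H98.PW.Stmts

/-! # PW, row DET: the determinant method at the finite level -/

set_option autoImplicit false

namespace Pool.PW

open Finset MvPolynomial

/-- the exponent vector of a function on `J` -/
noncomputable def detx {n : ℕ} (J : Finset (Fin n)) (D : ℕ) (a : J → Fin (D + 1)) : Fin n →₀ ℕ :=
  Finsupp.equivFunOnFinite.symm (fun k => if h : k ∈ J then ((a ⟨k, h⟩ : Fin (D + 1)) : ℕ) else 0)

theorem detx_apply {n : ℕ} (J : Finset (Fin n)) (D : ℕ) (a : J → Fin (D + 1)) (k : Fin n) :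
    detx J D a k = if h : k ∈ J then ((a ⟨k, h⟩ : Fin (D + 1)) : ℕ) else 0 := rfl

theorem detx_le {n : ℕ} (J : Finset (Fin n)) (D : ℕ) (a : J → Fin (D + 1)) (k : Fin n) :
    detx J D a k ≤ D := by
  rw [detx_apply]
  split_ifs with h
  · exact Nat.lt_succ_iff.mp (a ⟨k, h⟩).2
  · exact Nat.zero_le _

theorem detx_inj {n : ℕ} (J : Finset (Fin n)) (D : ℕ) : Function.Injective (detx J D) := by
  intro a b hab
  funext ⟨k, hk⟩
  have h := DFunLike.congr_fun hab k
  rw [detx_apply, detx_apply, dif_pos hk, dif_pos hk] at h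
  exact Fin.ext h

/-- the polynomial with given coefficients -/
noncomputable def dpo {n : ℕ} (J : Finset (Fin n)) (D : ℕ) (h : (J → Fin (D + 1)) → ℤ) :
    MvPolynomial (Fin n) ℤ := ∑ a, monomial (detx J D a) (h a)

theorem dpo_coeff {n : ℕ} (J : Finset (Fin n)) (D : ℕ) (h : (J → Fin (D + 1)) → ℤ)
    (a : J → Fin (D + 1)) : (dpo J D h).coeff (detx J D a) = h a := by
  classical
  unfold dpo
  rw [coeff_sum]
  simp only [coeff_monomial]
  rw [Finset.sum_eq_single a]
  · simp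
  · intro b _ hb
    rw [if_neg (fun hh => hb (detx_inj J D hh))]
  · intro h; exact absurd (mem_univ _) h

theorem dpo_coeff_le {n : ℕ} (J : Finset (Fin n)) (D : ℕ) (h : (J → Fin (D + 1)) → ℤ) (B : ℤ)
    (hB : 0 ≤ B) (hh : ∀ a, |h a| ≤ B) (c : Fin n →₀ ℕ) : |(dpo J D h).coeff c| ≤ B := by
  classical
  by_cases hc : ∃ a, detx J D a = c
  · obtain ⟨a, rfl⟩ := hc
    rw [dpo_coeff]; exact hh a
  · have : (dpo J D h).coeff c = 0 := by
      unfold dpo
      rw [coeff_sum]
      refine Finset.sum_eq_zero fun a _ => ?_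
      rw [coeff_monomial, if_neg (fun hh => hc ⟨a, hh⟩)]
    rw [this, abs_zero]; exact hB

theorem dpo_support {n : ℕ} (J : Finset (Fin n)) (D : ℕ) (h : (J → Fin (D + 1)) → ℤ)
    (c : Fin n →₀ ℕ) (hc : c ∈ (dpo J D h).support) : ∃ a, detx J D a = c := by
  classical
  by_contra hcon
  push Not at hcon
  rw [mem_support_iff] at hc
  apply hc
  unfold dpo
  rw [coeff_sum]
  refine Finset.sum_eq_zero fun a _ => ?_
  rw [coeff_monomial, if_neg (hcon a)]

theorem dpo_vars {n : ℕ} (J : Finset (Fin n)) (D : ℕ) (h : (J → Fin (D + 1)) → ℤ) :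
    (dpo J D h).vars ⊆ J := by
  classical
  intro k hk
  rw [mem_vars_iff_mem_support] at hk
  obtain ⟨c, hc, hkc⟩ := hk
  obtain ⟨a, rfl⟩ := dpo_support J D h c hc
  by_contra hkJ
  rw [Finsupp.mem_support_iff, detx_apply, dif_neg hkJ] at hkc
  exact hkc rfl

theorem dpo_deg {n : ℕ} (J : Finset (Fin n)) (D : ℕ) (h : (J → Fin (D + 1)) → ℤ) :
    (dpo J D h).totalDegree ≤ n * D := by
  classical
  unfold totalDegree
  refine Finset.sup_le fun c hc => ?_
  obtain ⟨a, rfl⟩ := dpo_support J D h c hc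
  rw [Finsupp.sum_fintype _ _ (fun _ => rfl)]
  calc ∑ k, detx J D a k ≤ ∑ _k : Fin n, D := Finset.sum_le_sum fun k _ => detx_le J D a k
    _ = n * D := by simp

theorem dpo_eval {n : ℕ} (J : Finset (Fin n)) (D : ℕ) (h : (J → Fin (D + 1)) → ℤ)
    (x : Fin n → ℤ) : eval x (dpo J D h) = ∑ a, h a * ∏ k, x k ^ detx J D a k := by
  unfold dpo
  rw [map_sum]
  refine Finset.sum_congr rfl fun a _ => ?_
  rw [eval_monomial, Finsupp.prod_fintype _ _ (fun _ => pow_zero _)]

theorem dpo_bound {n : ℕ} (J : Finset (Fin n)) (D : ℕ) (h : (J → Fin (D + 1)) → ℤ) (X B : ℝ)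
    (hX : 1 ≤ X) (hB : 0 ≤ B) (hh : ∀ a, |((h a : ℤ) : ℝ)| ≤ B) (x : Fin n → ℕ)
    (hx : ∀ k, (x k : ℝ) ≤ X) :
    |((eval (pt x) (dpo J D h) : ℤ) : ℝ)| ≤ ((D + 1) ^ J.card : ℕ) * (B * X ^ (J.card * D)) := by
  classical
  rw [dpo_eval]
  push_cast
  refine (Finset.abs_sum_le_sum_abs _ _).trans ?_
  have hk : ∀ a : J → Fin (D + 1), |((h a : ℤ) : ℝ) * ∏ k, ((pt x k : ℤ) : ℝ) ^ detx J D a k| ≤
      B * X ^ (J.card * D) := by
    intro a
    rw [abs_mul, Finset.abs_prod]
    refine mul_le_mul (hh a) ?_ (Finset.prod_nonneg fun _ _ => abs_nonneg _) hB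
    calc ∏ k, |((pt x k : ℤ) : ℝ) ^ detx J D a k|
        ≤ ∏ k : Fin n, (if k ∈ J then X ^ D else 1) := by
          refine Finset.prod_le_prod (fun _ _ => abs_nonneg _) fun k _ => ?_
          have h0 : ((pt x k : ℤ) : ℝ) = (x k : ℝ) := by unfold pt; push_cast; rfl
          rw [h0, abs_of_nonneg (by positivity)]
          split_ifs with hkJ
          · calc (x k : ℝ) ^ detx J D a k ≤ X ^ detx J D a k :=
                  pow_le_pow_left₀ (by positivity) (hx k) _
              _ ≤ X ^ D := pow_le_pow_right₀ hX (detx_le J D a k)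
          · rw [detx_apply, dif_neg hkJ, pow_zero]
      _ = X ^ (J.card * D) := by
          rw [Finset.prod_ite_mem, Finset.univ_inter, Finset.prod_const, ← pow_mul, mul_comm D]
  refine (Finset.sum_le_sum fun a _ => hk a).trans ?_
  rw [Finset.sum_const, nsmul_eq_mul]
  rw [Finset.card_univ, Fintype.card_fun, Fintype.card_fin, Fintype.card_coe]
  push_cast
  exact le_rfl

theorem det_thm (hE : S_ELM) (hR : S_RNG) : S_DET := by
  classical
  intro n η hη
  set N : ℕ := ⌈(n : ℝ) / η⌉₊ with hN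
  set R0 : ℕ := n + N + 1 with hR0
  set D0 : ℕ := R0 ^ n + 1 with hD0
  have hR1 : 1 ≤ R0 := by omega
  refine ⟨n * D0, (R0 ^ n : ℕ), 2, ?_, le_refl _, ?_⟩
  · exact_mod_cast Nat.one_le_pow _ _ hR1
  intro X p J i P S G F hX hp hpX hi hP hS hG hGF hnd
  have : Fact p.Prime := ⟨hp⟩
  set r : ℕ := R0 * D0 with hr
  have hr1 : 1 ≤ r := Nat.one_le_iff_ne_zero.mpr (by positivity)
  have hX1 : (1 : ℝ) ≤ X := by linarith
  have hp2 : 2 ≤ p := hp.two_le
  have hp1 : (1 : ℝ) ≤ p := by exact_mod_cast hp.one_lt.le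
  have hJn : J.card ≤ n := by simpa using Finset.card_le_univ J
  have hJ1 : 1 ≤ J.card := Finset.card_pos.mpr ⟨i, hi⟩
  -- the functions
  set w : S → Fin n → ℤ := fun s k => (s.1 k : ℤ) - P k with hw
  have hwP : ∀ s : S, (fun k => pt P k + w s k) = pt s.1 := by
    intro s; funext k; simp only [hw, pt]; ring
  obtain ⟨M, hMc, hM⟩ := hR n r p (J.erase i) S w hp hr1
    (fun s k => (hS s.1 s.2 k).2)
    (fun k => by
      obtain ⟨c, Q, hQ, hcQ⟩ := hE n r p J i (pt P) G F hp hi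
        (fun k hk => ⟨hG k hk, (hGF P hP).1 k hk⟩) (hGF P hP).2 hnd k
      refine ⟨c, Q, hQ, fun s => hcQ (w s) (fun l hl => ?_) ?_⟩
      · rw [hwP s]; exact (hGF s.1 s.2).1 l hl
      · rw [hwP s]; exact (hGF s.1 s.2).2)
  -- pigeonhole
  set H0 : ℕ := p ^ (R0 ^ n) with hH0
  let f : ((J → Fin (D0 + 1)) → Fin (H0 + 1)) → (S → ZMod (p ^ r)) := fun h s =>
    ((eval (pt s.1) (dpo J D0 (fun a => ((h a : ℕ) : ℤ))) : ℤ) : ZMod (p ^ r))
  have hf : ∀ h ∈ (univ : Finset ((J → Fin (D0 + 1)) → Fin (H0 + 1))), f h ∈ M := by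
    intro h _
    have h1 := hM (bind₁ (fun k => (MvPolynomial.X k + C ((P k : ℕ) : ℤ) :
        MvPolynomial (Fin n) ℤ)) (dpo J D0 (fun a => ((h a : ℕ) : ℤ))))
    have h2 : (fun s : S => ((eval (w s) (bind₁ (fun k => (MvPolynomial.X k + C ((P k : ℕ) : ℤ) :
        MvPolynomial (Fin n) ℤ)) (dpo J D0 (fun a => ((h a : ℕ) : ℤ)))) : ℤ) : ZMod (p ^ r))) =
        f h := by
      funext s
      simp only [f]
      congr 1
      have e : eval (w s) (bind₁ (fun k => (MvPolynomial.X k + C ((P k : ℕ) : ℤ) :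
          MvPolynomial (Fin n) ℤ)) (dpo J D0 (fun a => ((h a : ℕ) : ℤ)))) =
          eval (fun k => eval (w s) (MvPolynomial.X k + C ((P k : ℕ) : ℤ)))
            (dpo J D0 (fun a => ((h a : ℕ) : ℤ))) := eval₂Hom_bind₁ _ _ _ _
      rw [e]
      have e' : (fun k => eval (w s) (MvPolynomial.X k + C ((P k : ℕ) : ℤ))) = pt s.1 := by
        refine _root_.funext fun k => ?_
        rw [map_add, eval_X, eval_C]
        simp only [hw, pt]
        ring
      rw [e']
    rw [← h2]
    exact h1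
  have hcard : M.card < (univ : Finset ((J → Fin (D0 + 1)) → Fin (H0 + 1))).card := by
    rw [Finset.card_univ, Fintype.card_fun, Fintype.card_fun, Fintype.card_fin, Fintype.card_fin,
      Fintype.card_coe]
    refine lt_of_le_of_lt hMc ?_
    have e1 : r * r ^ (J.erase i).card = r ^ J.card := by
      rw [Finset.card_erase_of_mem hi, ← pow_succ', Nat.sub_add_cancel hJ1]
    rw [e1]
    have e2 : r ^ J.card ≤ R0 ^ n * (D0 + 1) ^ J.card := by
      rw [hr, mul_pow]
      exact Nat.mul_le_mul (Nat.pow_le_pow_right hR1 hJn) (Nat.pow_le_pow_left (by omega) _)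
    calc p ^ r ^ J.card ≤ p ^ (R0 ^ n * (D0 + 1) ^ J.card) :=
          Nat.pow_le_pow_right (by omega) e2
      _ = H0 ^ ((D0 + 1) ^ J.card) := by rw [hH0, pow_mul]
      _ < (H0 + 1) ^ ((D0 + 1) ^ J.card) :=
          Nat.pow_lt_pow_left (Nat.lt_succ_self _) (by positivity)
  obtain ⟨h, -, h', -, hne, hhh⟩ := Finset.exists_ne_map_eq_of_card_lt_of_maps_to hcard hf
  -- the relation
  set u : (J → Fin (D0 + 1)) → ℤ := fun a => ((h a : ℕ) : ℤ) - ((h' a : ℕ) : ℤ) with hu
  have hua : ∀ a, |u a| ≤ (H0 : ℤ) := by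
    intro a
    have a1 := (h a).2
    have a2 := (h' a).2
    rw [abs_le]
    constructor <;> simp only [hu] <;> omega
  have hsub : dpo J D0 u = dpo J D0 (fun a => ((h a : ℕ) : ℤ)) -
      dpo J D0 (fun a => ((h' a : ℕ) : ℤ)) := by
    unfold dpo
    rw [← Finset.sum_sub_distrib]
    refine Finset.sum_congr rfl fun a _ => ?_
    rw [← map_sub]
  refine ⟨dpo J D0 u, ?_, dpo_vars _ _ _, dpo_deg _ _ _, ?_, ?_⟩
  · intro h0
    apply hne
    funext a
    have h1 := dpo_coeff J D0 u a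
    rw [h0, coeff_zero] at h1
    apply Fin.ext
    simp only [hu] at h1
    omega
  · intro c
    have h1 := dpo_coeff_le J D0 u H0 (by positivity) hua c
    have h2 : |(((dpo J D0 u).coeff c : ℤ) : ℝ)| ≤ (H0 : ℝ) := by
      have := (Int.cast_le (R := ℝ)).mpr h1
      push_cast at this
      exact this
    refine h2.trans (le_of_eq ?_)
    rw [hH0, Real.rpow_natCast]
    push_cast
    rfl
  · intro x hx
    have hdv : ((p ^ r : ℕ) : ℤ) ∣ eval (pt x) (dpo J D0 u) := by
      rw [hsub, map_sub, ← ZMod.intCast_zmod_eq_zero_iff_dvd]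
      have := congrFun hhh ⟨x, hx⟩
      simp only [f] at this
      push_cast
      rw [sub_eq_zero]
      exact this
    have hbd := dpo_bound J D0 u X H0 hX1 (by positivity) (fun a => by
      have := (Int.cast_le (R := ℝ)).mpr (hua a)
      push_cast at this
      exact this) x (fun k => (hS x hx k).1)
    have hlt : |((eval (pt x) (dpo J D0 u) : ℤ) : ℝ)| < ((p ^ r : ℕ) : ℝ) := by
      refine lt_of_le_of_lt hbd ?_
      have g1 : (((D0 + 1) ^ J.card : ℕ) : ℝ) ≤ (p : ℝ) ^ (n * D0) := by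
        have : (D0 + 1) ^ J.card ≤ p ^ (n * D0) := by
          calc (D0 + 1) ^ J.card ≤ (D0 + 1) ^ n := Nat.pow_le_pow_right (by omega) hJn
            _ ≤ (2 ^ D0) ^ n := Nat.pow_le_pow_left (Nat.lt_two_pow_self) _
            _ = 2 ^ (n * D0) := by rw [← pow_mul, mul_comm]
            _ ≤ p ^ (n * D0) := Nat.pow_le_pow_left hp2 _
        exact_mod_cast this
      have g2 : X ^ (J.card * D0) ≤ (p : ℝ) ^ (N * D0) := by
        calc X ^ (J.card * D0) ≤ X ^ (n * D0) :=
              pow_le_pow_right₀ hX1 (Nat.mul_le_mul_right _ hJn)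
          _ = (X ^ η) ^ ((n : ℝ) / η * D0) := by
              rw [← Real.rpow_mul (by linarith), ← Real.rpow_natCast]
              congr 1
              push_cast
              field_simp
          _ ≤ (p : ℝ) ^ ((n : ℝ) / η * D0) :=
              Real.rpow_le_rpow (by positivity) hpX (by positivity)
          _ ≤ (p : ℝ) ^ (((N * D0 : ℕ) : ℝ)) := by
              refine Real.rpow_le_rpow_of_exponent_le hp1 ?_
              push_cast
              exact mul_le_mul_of_nonneg_right (Nat.le_ceil _) (by positivity)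
          _ = (p : ℝ) ^ (N * D0) := Real.rpow_natCast _ _
      calc (((D0 + 1) ^ J.card : ℕ) : ℝ) * (((H0 : ℕ) : ℝ) * X ^ (J.card * D0))
          ≤ (p : ℝ) ^ (n * D0) * ((p : ℝ) ^ (R0 ^ n) * (p : ℝ) ^ (N * D0)) := by
            refine mul_le_mul g1 ?_ (by positivity) (by positivity)
            refine mul_le_mul (le_of_eq (by rw [hH0]; push_cast; rfl)) g2 (by positivity)
              (by positivity)
        _ = (p : ℝ) ^ (n * D0 + (R0 ^ n + N * D0)) := by rw [pow_add, pow_add]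
        _ < (p : ℝ) ^ r := by
            refine pow_lt_pow_right₀ (by exact_mod_cast hp.one_lt) ?_
            rw [hr, hR0, add_mul, add_mul, one_mul]
            have : R0 ^ n < D0 := Nat.lt_succ_self _
            rw [← hR0]
            omega
        _ = ((p ^ r : ℕ) : ℝ) := by push_cast; rfl
    have hlt' : |eval (pt x) (dpo J D0 u)| < ((p ^ r : ℕ) : ℤ) := by
      have : ((|eval (pt x) (dpo J D0 u)| : ℤ) : ℝ) < (((p ^ r : ℕ) : ℤ) : ℝ) := by
        push_cast
        push_cast at hlt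
        exact hlt
      exact_mod_cast this
    exact Int.eq_zero_of_abs_lt_dvd hdv hlt'

end Pool.PW
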